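import Mathlib
import Pool.Agent.Z894.CP.Stm3
import Pool.Agent.Y378.MB.K1

/-!
# Adding the hidden roots to the coordinates
-/

set_option autoImplicit false
set_option linter.unusedSectionVars false

open MvPolynomial

namespace Pool.Agent.Y378.ND

open Pool.Agent.TH922.KC hiding Psi
open Pool.Agent.Z894.LX Pool.Agent.Z894.CP Pool.Agent.Z894.ND
open Pool.Agent.Y708.LX (gen_pt intRel_pow)
open Pool.Agent.Y378.MB (hom_ideal Pc_le intRel_mono growth aeval_Psi Psi_hom)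

section scaling

variable {r m : ℕ} {H : Type} [Fintype H] [DecidableEq H] (D : Dat r m H) {n p : ℕ}
  {R : Type} [CommRing R]

lemma fv_smul (cf : (Σ φ : H ⊕ Fin r, It (Fin (n + 1)) (D.e p φ)) → R) (x : Fin (n + 1) → R)
    (a : R) (φ : H ⊕ Fin r) :
    D.fv cf (fun j => x j * a) φ = D.fv cf x φ * a ^ (D.e p φ) := by
  unfold Dat.fv
  rw [Finset.sum_mul]
  refine Finset.sum_congr rfl fun μ _ => ?_
  simp only [mul_pow]
  rw [Finset.prod_mul_distrib, Finset.prod_pow_eq_pow_sum]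
  have h : ∑ j, μ.1 j = D.e p φ := by rw [← Finsupp.degree_eq_sum, μ.2]
  rw [h, mul_assoc]

lemma mv_smul (c' : D.Ex n p → R) (x : Fin (n + 1) → R) (a : R)
    (i : {i : Fin r // ∃ h, D.it h = i}) (z : {h : H // D.it h = i.1} → R) :
    D.mv c' (fun j => x j * a) i (fun h => z h * a) =
      D.mv c' x i z * a ^ (p ^ D.t (Sum.inr i.1)) := by
  unfold Dat.mv
  rw [Finset.sum_mul]
  refine Finset.sum_congr rfl fun μ _ => ?_
  simp only [mul_pow]
  rw [Finset.prod_mul_distrib, Finset.prod_mul_distrib, Finset.prod_pow_eq_pow_sum,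
    Finset.prod_pow_eq_pow_sum]
  have h : ∑ j, μ.1 (Sum.inl j) + ∑ h, μ.1 (Sum.inr h) = p ^ D.t (Sum.inr i.1) := by
    rw [← Fintype.sum_sum_type (fun x => μ.1 x), ← Finsupp.degree_eq_sum, μ.2]
  have h' : a ^ (p ^ D.t (Sum.inr i.1)) =
      a ^ (∑ j, μ.1 (Sum.inl j)) * a ^ (∑ h, μ.1 (Sum.inr h)) := by rw [← pow_add, h]
  rw [h']
  ring

lemma pv_smul (w : Fin r → R) (a : R) (φ : H ⊕ Fin r) :
    D.pv (fun i => w i * a) φ = D.pv w φ * a ^ ((D.prev φ).elim 0 (fun _ => 1)) := by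
  unfold Dat.pv
  cases D.prev φ <;> simp

lemma e_add (hp : 0 < p) (φ : H ⊕ Fin r) :
    (D.prev φ).elim 0 (fun _ => 1) + D.e p φ = p ^ D.t φ := by
  unfold Dat.e
  have h0 : 0 < p ^ D.t φ := pow_pos hp _
  cases D.prev φ
  · simp
  · simp only [Option.elim_some]
    omega

lemma pvfv_smul (hp : 0 < p) (cf : (Σ φ : H ⊕ Fin r, It (Fin (n + 1)) (D.e p φ)) → R)
    (x : Fin (n + 1) → R) (w : Fin r → R) (a : R) (φ : H ⊕ Fin r) :
    D.pv (fun i => w i * a) φ * D.fv cf (fun j => x j * a) φ =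
      (D.pv w φ * D.fv cf x φ) * a ^ (p ^ D.t φ) := by
  rw [pv_smul, fv_smul, ← e_add D hp φ, pow_add]
  ring

lemma fv_mem {S : Type*} [SetLike S R] [SubringClass S R] (A : S)
    (cf : (Σ φ : H ⊕ Fin r, It (Fin (n + 1)) (D.e p φ)) → R) (x : Fin (n + 1) → R)
    (φ : H ⊕ Fin r) (hx : ∀ j, x j ∈ A) (hc : ∀ k, cf k ∈ A) : D.fv cf x φ ∈ A := by
  unfold Dat.fv
  exact sum_mem fun μ _ => mul_mem (hc _) (prod_mem fun j _ => pow_mem (hx j) _)

lemma mv_mem {S : Type*} [SetLike S R] [SubringClass S R] (A : S)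
    (c' : D.Ex n p → R) (x : Fin (n + 1) → R)
    (i : {i : Fin r // ∃ h, D.it h = i}) (z : {h : H // D.it h = i.1} → R)
    (hx : ∀ j, x j ∈ A) (hz : ∀ h, z h ∈ A) (hc : ∀ μ, c' ⟨i, μ⟩ ∈ A) :
    D.mv c' x i z ∈ A := by
  unfold Dat.mv
  exact sum_mem fun μ _ => mul_mem (hc _) (mul_mem (prod_mem fun j _ => pow_mem (hx j) _)
    (prod_mem fun h _ => pow_mem (hz h) _))

lemma pv_mem {S : Type*} [SetLike S R] [SubringClass S R] (A : S) (w : Fin r → R)
    (φ : H ⊕ Fin r) (hw : ∀ i, D.prev φ = some i → w i ∈ A) : D.pv w φ ∈ A := by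
  unfold Dat.pv
  cases h : D.prev φ with
  | none => exact one_mem A
  | some i => exact hw i h

lemma fv_zero (cf : (Σ φ : H ⊕ Fin r, It (Fin (n + 1)) (D.e p φ)) → R) (x : Fin (n + 1) → R)
    (φ : H ⊕ Fin r) (hx : ∀ j, x j = 0) (he : 0 < D.e p φ) : D.fv cf x φ = 0 := by
  have h : x = fun j => (0 : R) * 0 := by
    funext j
    rw [hx, mul_zero]
  rw [h, fv_smul, zero_pow he.ne', mul_zero]

lemma mv_zero (hp : 0 < p) (c' : D.Ex n p → R) (x : Fin (n + 1) → R)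
    (i : {i : Fin r // ∃ h, D.it h = i}) (z : {h : H // D.it h = i.1} → R)
    (hx : ∀ j, x j = 0) (hz : ∀ h, z h = 0) : D.mv c' x i z = 0 := by
  have h : x = fun j => (0 : R) * 0 := by
    funext j
    rw [hx, mul_zero]
  have h' : z = fun j => (0 : R) * 0 := by
    funext j
    rw [hz, mul_zero]
  rw [h, h', mv_smul, zero_pow (pow_pos hp _).ne', mul_zero]

/-- the extra terms -/
noncomputable def Wx (n p : ℕ) (ν : D.Ex n p) : MvPolynomial (Fin (n + 1) ⊕ (H ⊕ Fin r)) ℤ :=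
  (∏ j, X (Sum.inl j) ^ (ν.2.1 (Sum.inl j))) *
    ∏ h : {h : H // D.it h = ν.1.1}, X (Sum.inr (Sum.inl h.1)) ^ (ν.2.1 (Sum.inr h))

lemma Wx_hom (ν : D.Ex n p) : (Wx D n p ν).IsHomogeneous (p ^ D.t (Sum.inr ν.1.1)) := by
  unfold Wx
  have h1 : (∏ j, (X (Sum.inl j) : MvPolynomial (Fin (n + 1) ⊕ (H ⊕ Fin r)) ℤ) ^
      (ν.2.1 (Sum.inl j))).IsHomogeneous (∑ j, 1 * ν.2.1 (Sum.inl j)) :=
    IsHomogeneous.prod _ _ _ fun j _ => (isHomogeneous_X _ _).pow _
  have h2 : (∏ h : {h : H // D.it h = ν.1.1},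
      (X (Sum.inr (Sum.inl h.1)) : MvPolynomial (Fin (n + 1) ⊕ (H ⊕ Fin r)) ℤ) ^
      (ν.2.1 (Sum.inr h))).IsHomogeneous (∑ h, 1 * ν.2.1 (Sum.inr h)) :=
    IsHomogeneous.prod _ _ _ fun j _ => (isHomogeneous_X _ _).pow _
  have h3 := h1.mul h2
  simp only [one_mul] at h3
  have h : ∑ j, ν.2.1 (Sum.inl j) + ∑ h, ν.2.1 (Sum.inr h) = p ^ D.t (Sum.inr ν.1.1) := by
    rw [← Fintype.sum_sum_type (fun x => ν.2.1 x), ← Finsupp.degree_eq_sum, ν.2.2]
  rwa [h] at h3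

/-- the part of an extra term -/
def gx (n p : ℕ) (ν : D.Ex n p) : H ⊕ Fin r := Sum.inr ν.1.1

end scaling

section field

variable {r m : ℕ} {H : Type} [Fintype H] [DecidableEq H] (D : Dat r m H) {n p : ℕ}
  {κ Ω : Type} [Field κ] [Field Ω] [Algebra κ Ω]

lemma Th_hom {s : ℕ} (hG : D.Good p s)
    (cf : (Σ φ : H ⊕ Fin r, It (Fin (n + 1)) (D.e p φ)) → κ) (c' : D.Ex n p → κ)
    (φ : H ⊕ Fin r) :
    (Th (H ⊕ Fin r) (D.e p) cf (gx D n p) (Wx D n p) c' φ).IsHomogeneous (D.e p φ) := by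
  unfold Th
  refine (Psi_hom (D.e p) cf φ).add (IsHomogeneous.sum _ _ _ fun ν hν => ?_)
  rw [Finset.mem_filter] at hν
  refine IsHomogeneous.C_mul ?_ _
  have h1 := (Wx_hom D ν).map (Int.castRingHom κ)
  have h2 : p ^ D.t (Sum.inr ν.1.1) = D.e p φ := by
    obtain ⟨⟨i, h, hh⟩, μ⟩ := ν
    rw [← hν.2]
    unfold gx Dat.e
    simp only
    rw [← hh, hG.comp h]
    simp
  rwa [h2] at h1

lemma Th_pure (ξ : Fin (n + 1) ⊕ (H ⊕ Fin r) → Ω)
    (cf : (Σ φ : H ⊕ Fin r, It (Fin (n + 1)) (D.e p φ)) → κ) (c' : D.Ex n p → κ)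
    (φ : H ⊕ Fin r) (hφ : ∀ ν : D.Ex n p, gx D n p ν ≠ φ) :
    aeval ξ (Th (H ⊕ Fin r) (D.e p) cf (gx D n p) (Wx D n p) c' φ) =
      D.fv (fun k => algebraMap κ Ω (cf k)) (fun j => ξ (Sum.inl j)) φ := by
  unfold Th
  rw [Finset.filter_false_of_mem (fun ν _ => hφ ν), Finset.sum_empty, add_zero, aeval_Psi]
  rfl

lemma Th_mixed (ξ : Fin (n + 1) ⊕ (H ⊕ Fin r) → Ω)
    (cf : (Σ φ : H ⊕ Fin r, It (Fin (n + 1)) (D.e p φ)) → κ) (c' : D.Ex n p → κ)
    (i : {i : Fin r // ∃ h, D.it h = i}) :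
    aeval ξ (Th (H ⊕ Fin r) (D.e p) cf (gx D n p) (Wx D n p) c' (Sum.inr i.1)) =
      D.fv (fun k => algebraMap κ Ω (cf k)) (fun j => ξ (Sum.inl j)) (Sum.inr i.1) +
      D.mv (fun k => algebraMap κ Ω (c' k)) (fun j => ξ (Sum.inl j)) i
        (fun h => ξ (Sum.inr (Sum.inl h.1))) := by
  unfold Th
  rw [map_add, aeval_Psi, map_sum, Finset.sum_filter, Fintype.sum_sigma]
  congr 1
  rw [Finset.sum_eq_single i]
  · unfold Dat.mv
    refine Finset.sum_congr rfl fun μ _ => ?_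
    rw [if_pos (by rfl)]
    unfold Wx
    simp only [map_mul, map_prod, map_pow, map_X, aeval_C, aeval_X]
  · intro i' _ hi'
    refine Finset.sum_eq_zero fun μ _ => ?_
    rw [if_neg]
    intro h
    apply hi'
    unfold gx at h
    exact Subtype.ext (Sum.inr_injective h)
  · intro h
    exact absurd (Finset.mem_univ _) h

end field

theorem k1_holds (h1 : Pool.Agent.Z894.ND.NK2) (h2 : Pool.Agent.Z894.CP.MCmp)
    (h3 : Pool.Agent.Z894.ND.NHid) : Pool.Agent.Z894.ND.NK1 := by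
  intro κ _ _ _ p hpf n r m s hs hnm hnp H _ _ D hG ω hω cf c' hind P hP hPp hPgr hunused
    hsimple hcomp
  classical
  have hp : p.Prime := hpf.out
  have hQ0 : 0 < p ^ s := pow_pos hp.pos _
  have he : ∀ φ, p - 1 ≤ D.e p φ := by
    intro φ
    have h5 := e_add D hp.pos φ
    have h6 : p ≤ p ^ D.t φ := by
      calc p = p ^ 1 := (pow_one p).symm
        _ ≤ p ^ D.t φ := Nat.pow_le_pow_right hp.pos (hG.tpos φ)
    have h7 : (D.prev φ).elim 0 (fun _ => 1) ≤ 1 := by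
      cases D.prev φ <;> simp
    omega
  have he0 : ∀ φ, 0 < D.e p φ := by
    intro φ
    have h5 := he φ
    have h6 := hp.two_le
    omega
  obtain ⟨Ω, _, _, _, η, hker⟩ := gen_pt P
  have hcΩ : CharZero Ω := charZero_of_injective_algebraMap (algebraMap κ Ω).injective
  have hmemP : ∀ f : MvPolynomial (Fin (n + 1) ⊕ Fin r) κ, f ∈ P ↔ aeval η f = 0 := by
    intro f
    rw [← hker]
    exact RingHom.mem_ker
  obtain ⟨yv, hyv⟩ : ∃ yv : Fin (n + 1) → Ω, ∀ j, yv j = η (Sum.inl j) := ⟨_, fun _ => rfl⟩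
  obtain ⟨XX, hXX⟩ : ∃ XX : Fin r → Ω, ∀ i, XX i = η (Sum.inr i) := ⟨_, fun _ => rfl⟩
  have hηe : η = Sum.elim yv XX := by
    funext x
    rcases x with j | i
    · exact (hyv j).symm
    · exact (hXX i).symm
  obtain ⟨pf, hpf'⟩ : ∃ pf : H ⊕ Fin r → Ω, ∀ φ, pf φ =
      D.fv (fun k => algebraMap κ Ω (cf k)) yv φ := ⟨_, fun _ => rfl⟩
  have F0 : ∀ i, ¬ D.used i → XX i = 0 := by
    intro i hi
    have h5 := (hmemP _).1 (hunused i hi)
    rwa [aeval_X, ← hXX] at h5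
  have hpvX : ∀ φ, aeval η (D.pv (fun i' => (X (Sum.inr i') :
      MvPolynomial (Fin (n + 1) ⊕ Fin r) κ)) φ) = D.pv XX φ := by
    intro φ
    unfold Dat.pv
    cases D.prev φ with
    | none => simp
    | some i => simp [hXX]
  have F1 : ∀ i, D.used i → (∀ h, D.it h ≠ i) →
      XX i ^ (p ^ D.t (Sum.inr i)) = D.pv XX (Sum.inr i) * pf (Sum.inr i) := by
    intro i hi hi'
    have h5 := (hmemP _).1 (hsimple i hi hi')
    rw [map_sub, map_mul, map_pow, aeval_X, hpvX, aeval_Psi, sub_eq_zero, ← hXX] at h5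
    rw [h5, hpf']
    congr 1
    unfold Dat.fv
    exact Finset.sum_congr rfl fun μ _ => by simp only [hyv]
  have hz0 : ∀ h : H, ∃ z : Ω, z ^ (p ^ D.t (Sum.inl h)) =
      D.pv XX (Sum.inl h) * pf (Sum.inl h) := fun h =>
    IsAlgClosed.exists_pow_nat_eq _ (pow_pos hp.pos _)
  choose z0 hz0 using hz0
  have hl : ∀ i : {i : Fin r // ∃ h, D.it h = i},
      ∃ l : (∀ h : {h : H // D.it h = i.1}, Fin (p ^ D.t (Sum.inl h.1))),
      XX i.1 ^ (p ^ D.t (Sum.inr i.1)) = pf (Sum.inr i.1) +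
        D.mv (fun k => algebraMap κ Ω (c' k)) yv i (fun h =>
          algebraMap κ Ω (ω ^ ((l h : ℕ) * p ^ (s - D.t (Sum.inl h.1)))) * z0 h.1) := by
    intro i
    obtain ⟨E, hEP, hE⟩ := hcomp i
    have h5 := (hmemP _).1 hEP
    have h6 := hE Ω (algebraMap κ Ω) yv XX (fun h => z0 h.1) (fun h => by
      rw [hz0, hpf'])
    rw [aeval_def, hηe, h6, Finset.prod_eq_zero_iff] at h5
    obtain ⟨l, -, hl⟩ := h5
    refine ⟨l, ?_⟩
    rw [hpf']
    exact sub_eq_zero.mp hl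
  choose l hl using hl
  obtain ⟨z, hz⟩ : ∃ z : H → Ω, ∀ h, z h = algebraMap κ Ω (ω ^
      ((l ⟨D.it h, ⟨h, rfl⟩⟩ ⟨h, rfl⟩ : ℕ) * p ^ (s - D.t (Sum.inl h)))) * z0 h :=
    ⟨_, fun _ => rfl⟩
  have Z1 : ∀ h, z h ^ (p ^ D.t (Sum.inl h)) = D.pv XX (Sum.inl h) * pf (Sum.inl h) := by
    intro h
    rw [hz, mul_pow, hz0, ← map_pow, ← pow_mul, mul_assoc, ← pow_add,
      Nat.sub_add_cancel (hG.tle _), mul_comm _ (p ^ s), pow_mul, hω.pow_eq_one, one_pow, map_one,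
      one_mul]
  have F2 : ∀ i : {i : Fin r // ∃ h, D.it h = i},
      XX i.1 ^ (p ^ D.t (Sum.inr i.1)) = pf (Sum.inr i.1) +
        D.mv (fun k => algebraMap κ Ω (c' k)) yv i (fun h => z h.1) := by
    intro i
    rw [hl i]
    have hfun : (fun h : {h : H // D.it h = i.1} =>
        algebraMap κ Ω (ω ^ ((l i h : ℕ) * p ^ (s - D.t (Sum.inl h.1)))) * z0 h.1) =
        fun h => z h.1 := by
      funext h
      obtain ⟨i, hi⟩ := i
      obtain ⟨h, hh⟩ := h
      have hh' : D.it h = i := hh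
      subst hh'
      rw [hz]
    rw [hfun]
  by_cases hη : ∀ i, η (Sum.inl i) = 0
  · -- everything vanishes
    have hy0 : ∀ j, yv j = 0 := fun j => by rw [hyv, hη]
    have hpf0 : ∀ φ, pf φ = 0 := fun φ => by rw [hpf', fv_zero D _ _ _ hy0 (he0 φ)]
    have hz00 : ∀ h, z h = 0 := by
      intro h
      have h5 := Z1 h
      rw [hpf0, mul_zero] at h5
      exact (pow_eq_zero_iff (pow_pos hp.pos _).ne').mp h5
    have hX0 : ∀ i, XX i = 0 := by
      intro i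
      by_cases hu : D.used i
      · by_cases hc : ∃ h, D.it h = i
        · have h5 := F2 ⟨i, hc⟩
          rw [hpf0, mv_zero D hp.pos _ _ _ _ hy0 (fun h => hz00 h.1), add_zero] at h5
          exact (pow_eq_zero_iff (pow_pos hp.pos _).ne').mp h5
        · have h5 := F1 i hu (fun h hh => hc ⟨h, hh⟩)
          rw [hpf0, mul_zero] at h5
          exact (pow_eq_zero_iff (pow_pos hp.pos _).ne').mp h5
      · exact F0 i hu
    have hallv : ∀ x, (X x : MvPolynomial (Fin (n + 1) ⊕ Fin r) κ) ∈ P := by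
      intro x
      rw [hmemP, aeval_X]
      rcases x with i | i
      · exact hη i
      · rw [← hXX]
        exact hX0 i
    refine ⟨1, fun t ht => ?_⟩
    obtain ⟨u, rfl⟩ := Nat.exists_eq_add_of_le' ht
    rw [hf_all hallv, hf_all hallv]
    simp
  push Not at hη
  obtain ⟨j0, hj0⟩ := hη
  obtain ⟨lam, hlam⟩ : ∃ lam : Ω, lam = η (Sum.inl j0) := ⟨_, rfl⟩
  have hlam0 : lam ≠ 0 := by rw [hlam]; exact hj0
  obtain ⟨F, hFdef⟩ : ∃ F : IntermediateField κ Ω, F = RF κ η (Sum.inl j0) := ⟨_, rfl⟩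
  have k1m : ∀ v, η v / lam ∈ F := fun v => by
    rw [hFdef, hlam]
    exact ratio_mem η (Sum.inl j0) v
  obtain ⟨x, hx⟩ : ∃ x : Fin (n + 1) → Ω, ∀ j, x j = yv j / lam := ⟨_, fun _ => rfl⟩
  obtain ⟨X0, hX0⟩ : ∃ X0 : Fin r → Ω, ∀ i, X0 i = XX i / lam := ⟨_, fun _ => rfl⟩
  obtain ⟨zz, hzz⟩ : ∃ zz : H → Ω, ∀ h, zz h = z h / lam := ⟨_, fun _ => rfl⟩
  have hx' : yv = fun j => x j * lam := by
    funext j
    rw [hx, div_mul_cancel₀ _ hlam0]
  have hX0' : XX = fun i => X0 i * lam := by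
    funext j
    rw [hX0, div_mul_cancel₀ _ hlam0]
  have hzz' : ∀ h, z h = zz h * lam := fun h => by rw [hzz, div_mul_cancel₀ _ hlam0]
  have hcan : ∀ (k : ℕ) (a b : Ω), (a * lam) ^ k = b * lam ^ k → a ^ k = b := by
    intro k a b h
    rw [mul_pow] at h
    exact mul_right_cancel₀ (pow_ne_zero k hlam0) h
  have N1 : ∀ h, zz h ^ (p ^ D.t (Sum.inl h)) = D.pv X0 (Sum.inl h) *
      D.fv (fun k => algebraMap κ Ω (cf k)) x (Sum.inl h) := by
    intro h
    apply hcan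
    rw [← hzz', Z1, hpf', hX0', hx', pvfv_smul D hp.pos]
  have N2 : ∀ i, D.used i → (∀ h, D.it h ≠ i) → X0 i ^ (p ^ D.t (Sum.inr i)) =
      D.pv X0 (Sum.inr i) * D.fv (fun k => algebraMap κ Ω (cf k)) x (Sum.inr i) := by
    intro i hi hi'
    apply hcan
    have h5 := F1 i hi hi'
    rw [hpf', hX0', hx', pvfv_smul D hp.pos] at h5
    exact h5
  have N3 : ∀ i : {i : Fin r // ∃ h, D.it h = i}, X0 i.1 ^ (p ^ D.t (Sum.inr i.1)) =
      D.fv (fun k => algebraMap κ Ω (cf k)) x (Sum.inr i.1) +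
        D.mv (fun k => algebraMap κ Ω (c' k)) x i (fun h => zz h.1) := by
    intro i
    apply hcan
    have h5 := F2 i
    have h6 : (fun h : {h : H // D.it h = i.1} => z h.1) = fun h => zz h.1 * lam :=
      funext fun h => hzz' h.1
    have h7 : D.e p (Sum.inr i.1) = p ^ D.t (Sum.inr i.1) := by
      obtain ⟨i, h, hh⟩ := i
      unfold Dat.e
      simp only
      rw [← hh, hG.comp h]
      simp
    rw [hpf', hX0', hx', h6, fv_smul, mv_smul, h7, ← add_mul] at h5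
    exact h5
  have hX00 : ∀ i, ¬ D.used i → X0 i = 0 := fun i hi => by rw [hX0, F0 i hi, zero_div]
  have hxF : ∀ j, x j ∈ F := fun j => by rw [hx, hyv]; exact k1m _
  have hXF : ∀ i, X0 i ∈ F := fun i => by rw [hX0, hXX]; exact k1m _
  have hfvF : ∀ φ, D.fv (fun k => algebraMap κ Ω (cf k)) x φ ∈ F := fun φ =>
    fv_mem D F _ _ _ hxF (fun k => F.algebraMap_mem _)
  have hzsF : ∀ h, zz h ^ (p ^ s) ∈ F := by
    intro h
    have h5 : zz h ^ (p ^ s) = (zz h ^ (p ^ D.t (Sum.inl h))) ^ (p ^ (s - D.t (Sum.inl h))) := by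
      rw [← pow_mul, ← pow_add, Nat.add_sub_cancel' (hG.tle _)]
    rw [h5, N1]
    exact pow_mem (mul_mem (pv_mem D F _ _ (fun i _ => hXF i)) (hfvF _)) _
  -- the hidden roots lie in the field
  have hzF : ∀ h, zz h ∈ F := by
    intro h0
    obtain ⟨i, hi⟩ : ∃ i, D.it h0 = i := ⟨_, rfl⟩
    have hic : ∃ h, D.it h = i := ⟨h0, hi⟩
    obtain ⟨S, hS⟩ : ∃ S : Set ((Σ φ : H ⊕ Fin r, It (Fin (n + 1)) (D.e p φ)) ⊕ D.Ex n p),
        S = Set.range (fun μ : It (Fin (n + 1) ⊕ {h : H // D.it h = i}) (p ^ D.t (Sum.inr i)) =>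
          (Sum.inr (⟨⟨i, hic⟩, μ⟩ : D.Ex n p) :
            (Σ φ : H ⊕ Fin r, It (Fin (n + 1)) (D.e p φ)) ⊕ D.Ex n p)) := ⟨_, rfl⟩
    obtain ⟨k1, hk1⟩ : ∃ k1 : IntermediateField ℚ κ,
        k1 = IntermediateField.adjoin ℚ (Sum.elim cf c' '' Sᶜ) := ⟨_, rfl⟩
    have hind1 : AlgebraicIndependent k1 (fun μ : It (Fin (n + 1) ⊕ {h : H // D.it h = i})
        (p ^ D.t (Sum.inr i)) => c' ⟨⟨i, hic⟩, μ⟩) := by
      have h5 := ((AlgebraicIndependent.iff_adjoin_image_compl S).1 hind).2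
      have h6 : AlgebraicIndependent (IntermediateField.adjoin ℚ (Sum.elim cf c' '' Sᶜ))
          (fun j : S => Sum.elim cf c' j) :=
        IntermediateField.algebraicIndependent_adjoin_iff.2 h5
      have h7 := h6.comp (fun μ : It (Fin (n + 1) ⊕ {h : H // D.it h = i})
        (p ^ D.t (Sum.inr i)) => (⟨Sum.inr ⟨⟨i, hic⟩, μ⟩, by rw [hS]; exact ⟨μ, rfl⟩⟩ : S))
        (by
          intro μ μ' hμ
          have h8 := congrArg Subtype.val hμ
          have h9 := Sum.inr_injective h8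
          simpa using h9)
      rw [hk1]
      exact h7
    obtain ⟨K1, hK1⟩ : ∃ K1 : IntermediateField k1 Ω,
        K1 = IntermediateField.adjoin k1 (Set.range x) := ⟨_, rfl⟩
    obtain ⟨AL, hAL⟩ : ∃ AL : IntermediateField K1 Ω, AL = algebraicClosure K1 Ω := ⟨_, rfl⟩
    have hALm : ∀ w, w ∈ AL ↔ IsAlgebraic K1 w := fun w => by
      rw [hAL]
      exact mem_algebraicClosure_iff
    have hpow : ∀ (k : ℕ) (w : Ω), 0 < k → w ^ k ∈ AL → w ∈ AL := by
      intro k w hk hw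
      rw [hALm] at hw ⊢
      exact IsAlgebraic.of_pow hk hw
    have hk1AL : ∀ w : κ, w ∈ k1 → algebraMap κ Ω w ∈ AL := by
      intro w hw
      have h5 : algebraMap κ Ω w ∈ K1 := K1.algebraMap_mem (⟨w, hw⟩ : k1)
      exact AL.algebraMap_mem (⟨_, h5⟩ : K1)
    have hxAL : ∀ j, x j ∈ AL := by
      intro j
      have h5 : x j ∈ K1 := by
        rw [hK1]
        exact IntermediateField.subset_adjoin _ _ (Set.mem_range_self j)
      exact AL.algebraMap_mem (⟨_, h5⟩ : K1)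
    have hcfAL : ∀ k, algebraMap κ Ω (cf k) ∈ AL := by
      intro k
      apply hk1AL
      rw [hk1]
      refine IntermediateField.subset_adjoin _ _ ⟨Sum.inl k, ?_, rfl⟩
      rw [hS]
      rintro ⟨μ, hμ⟩
      exact Sum.inr_ne_inl hμ
    have hc'AL : ∀ (i' : {i : Fin r // ∃ h, D.it h = i}) μ, i'.1 ≠ i →
        algebraMap κ Ω (c' ⟨i', μ⟩) ∈ AL := by
      intro i' μ hne
      apply hk1AL
      rw [hk1]
      refine IntermediateField.subset_adjoin _ _ ⟨Sum.inr ⟨i', μ⟩, ?_, rfl⟩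
      rw [hS]
      rintro ⟨μ', hμ⟩
      have h5 := Sum.inr_injective hμ
      have h6 := congrArg (fun ν : D.Ex n p => ν.1.1) h5
      exact hne h6.symm
    have hfvAL : ∀ φ, D.fv (fun k => algebraMap κ Ω (cf k)) x φ ∈ AL := fun φ =>
      fv_mem D AL _ _ _ hxAL hcfAL
    have hXAL : ∀ N : ℕ, ∀ i' : Fin r, i'.val = N → i' < i → X0 i' ∈ AL := by
      intro N
      induction N using Nat.strong_induction_on with
      | _ N ih =>
        intro i' hN hi'
        have hprev : ∀ φ, D.item φ = i' → D.pv X0 φ ∈ AL := by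
          intro φ hφ
          refine pv_mem D AL _ _ fun i'' h'' => ?_
          have h5 := (hG.prevlt φ i'' h'').2
          rw [hφ] at h5
          have h6 : i''.val < i'.val := h5
          exact ih i''.val (by omega) i'' rfl (h5.trans hi')
        by_cases hu : D.used i'
        · by_cases hc : ∃ h, D.it h = i'
          · apply hpow _ _ (pow_pos hp.pos (D.t (Sum.inr i')))
            rw [N3 ⟨i', hc⟩]
            refine add_mem (hfvAL _) (mv_mem D AL _ _ _ _ hxAL ?_ ?_)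
            · intro h
              apply hpow _ _ (pow_pos hp.pos (D.t (Sum.inl h.1)))
              rw [N1]
              exact mul_mem (hprev _ h.2) (hfvAL _)
            · intro μ
              exact hc'AL _ μ (ne_of_lt hi')
          · apply hpow _ _ (pow_pos hp.pos (D.t (Sum.inr i')))
            rw [N2 i' hu (fun h hh => hc ⟨h, hh⟩)]
            exact mul_mem (hprev _ rfl) (hfvAL _)
        · rw [hX00 i' hu]
          exact zero_mem _
    have h5 := h3 k1 κ Ω p n s (D.t (Sum.inr i)) hnp (hG.tpos _) ω hω {h : H // D.it h = i} x j0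
      (by rw [hx, hyv, ← hlam, div_self hlam0]) (fun h => zz h.1) (X0 i)
      (D.fv (fun k => algebraMap κ Ω (cf k)) x (Sum.inr i)) F hxF (fun h => hzsF h.1) (hXF i)
      (hfvF _)
      (by
        intro h
        rw [← hK1, ← hALm]
        apply hpow _ _ (pow_pos hp.pos (D.t (Sum.inl h.1)))
        rw [N1]
        refine mul_mem (pv_mem D AL _ _ fun i'' h'' => ?_) (hfvAL _)
        have h6 := (hG.prevlt _ i'' h'').2
        have h7 : D.item (Sum.inl h.1) = i := h.2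
        rw [h7] at h6
        exact hXAL _ i'' rfl h6)
      (by
        rw [← hK1, ← hALm]
        exact hfvAL _)
      (fun μ => c' ⟨⟨i, hic⟩, μ⟩) hind1 (N3 ⟨i, hic⟩)
    exact h5 ⟨h0, hi⟩
  -- the new point
  have hpfPc : ∀ φ, pf φ ∈ Pc κ η (D.e p φ) := by
    intro φ
    have h5 : pf φ = aeval η (Psi (Fin r) (D.e p) cf φ) := by
      rw [hpf', aeval_Psi]
      unfold Dat.fv
      exact Finset.sum_congr rfl fun μ _ => by simp only [hyv]
    rw [h5]
    exact mem_Pc (Psi_hom _ _ _)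
  have hpvPc : ∀ φ, D.pv XX φ ∈ Pc κ η ((D.prev φ).elim 0 (fun _ => 1)) := by
    intro φ
    unfold Dat.pv
    cases D.prev φ with
    | none => exact Pc_one
    | some i =>
      simp only [Option.elim_some]
      rw [hXX]
      exact Pc_X η (Sum.inr i)
  have hzPc : ∀ h, z h ^ (p ^ s) ∈ Pc κ η (p ^ s) := by
    intro h
    have h5 : z h ^ (p ^ s) = (z h ^ (p ^ D.t (Sum.inl h))) ^ (p ^ (s - D.t (Sum.inl h))) := by
      rw [← pow_mul, ← pow_add, Nat.add_sub_cancel' (hG.tle _)]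
    have h6 := Pc_pow (Pc_mul (hpvPc (Sum.inl h)) (hpfPc (Sum.inl h)))
      (p ^ (s - D.t (Sum.inl h)))
    rw [e_add D hp.pos, ← pow_add, Nat.add_sub_cancel' (hG.tle _)] at h6
    rw [h5, Z1]
    exact h6
  have hzint : ∀ h, IntRel (κ := κ) η 1 (z h) := fun h =>
    intRel_pow η 1 (p ^ s) hQ0 (z h) (by rw [one_mul]; exact hzPc h)
  have hPf : ∀ t, hf P t = Module.finrank κ (Pc κ η t) := by
    intro t
    rw [Pc_finrank, hker]
  have hzF' : ∀ h, z h / η (Sum.inl j0) ∈ RF κ η (Sum.inl j0) := by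
    intro h
    rw [← hFdef, ← hlam, ← hzz]
    exact hzF h
  have hgr1 : ∃ C : ℕ, ∀ t, Module.finrank κ (Pc κ (Sum.elim η z) t) ≤ C * (t + 1) := by
    refine growth η (Sum.inl j0) hj0 z (p ^ s) hQ0 hzPc hzF' ?_
    obtain ⟨C, hC⟩ := hPgr
    exact ⟨C, fun t => by rw [← hPf]; exact hC t⟩
  obtain ⟨ξ, hξl, hξz, hξX⟩ : ∃ ξ : Fin (n + 1) ⊕ (H ⊕ Fin r) → Ω,
      (∀ j, ξ (Sum.inl j) = yv j) ∧ (∀ h, ξ (Sum.inr (Sum.inl h)) = z h) ∧
      (∀ i, ξ (Sum.inr (Sum.inr i)) = XX i) :=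
    ⟨Sum.elim yv (Sum.elim z XX), fun _ => rfl, fun _ => rfl, fun _ => rfl⟩
  have hle1 : ∀ t, Pc κ ξ t ≤ Pc κ (Sum.elim η z) t := by
    intro t
    refine Pc_le ?_ t
    rintro (j | (h | i))
    · rw [hξl, hyv]
      exact Pc_X (κ := κ) (Sum.elim η z) (Sum.inl (Sum.inl j))
    · rw [hξz]
      exact Pc_X (κ := κ) (Sum.elim η z) (Sum.inr h)
    · rw [hξX, hXX]
      exact Pc_X (κ := κ) (Sum.elim η z) (Sum.inl (Sum.inr i))
  have hle2 : ∀ t, Pc κ (Sum.elim η z) t ≤ Pc κ ξ t := by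
    intro t
    refine Pc_le ?_ t
    rintro ((j | i) | h)
    · rw [Sum.elim_inl, ← hyv, ← hξl]
      exact Pc_X (κ := κ) ξ (Sum.inl j)
    · rw [Sum.elim_inl, ← hXX, ← hξX]
      exact Pc_X (κ := κ) ξ (Sum.inr (Sum.inr i))
    · rw [Sum.elim_inr, ← hξz]
      exact Pc_X (κ := κ) ξ (Sum.inr (Sum.inl h))
  have hPcEq : ∀ t, Pc κ ξ t = Pc κ (Sum.elim η z) t := fun t =>
    le_antisymm (hle1 t) (hle2 t)
  obtain ⟨P', hP'h, hP'm, hP'f⟩ := hom_ideal (κ := κ) ξ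
  have hξe : (fun j => ξ (Sum.inl j)) = yv := funext hξl
  -- the relations
  have hrel : ∀ φ, D.valid φ → (X (Sum.inr φ) : MvPolynomial (Fin (n + 1) ⊕ (H ⊕ Fin r)) κ) ^
      (p ^ D.t φ) - D.pv (fun i => X (Sum.inr (Sum.inr i))) φ *
        Th (H ⊕ Fin r) (D.e p) cf (gx D n p) (Wx D n p) c' φ ∈ P' := by
    intro φ hφ
    rw [hP'm (p ^ D.t φ)]
    · have hpvξ : aeval ξ (D.pv (fun i => (X (Sum.inr (Sum.inr i)) :
          MvPolynomial (Fin (n + 1) ⊕ (H ⊕ Fin r)) κ)) φ) = D.pv XX φ := by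
        unfold Dat.pv
        cases D.prev φ with
        | none => simp
        | some i => simp [hξX]
      rw [map_sub, map_mul, map_pow, aeval_X, hpvξ, sub_eq_zero]
      rcases φ with h | i
      · rw [Th_pure D ξ cf c' _ (fun ν => Sum.inr_ne_inl), hξe, hξz, Z1, hpf']
      · by_cases hc : ∃ h, D.it h = i
        · rw [Th_mixed D ξ cf c' ⟨i, hc⟩, hξe, hξX]
          have h5 := F2 ⟨i, hc⟩
          have h6 : D.pv XX (Sum.inr i) = 1 := by
            obtain ⟨h, hh⟩ := hc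
            unfold Dat.pv
            rw [← hh, hG.comp h]
            rfl
          rw [h6, one_mul]
          rw [hpf'] at h5
          simp only [hξz]
          exact h5
        · rw [Th_pure D ξ cf c' _ (fun ν hν => hc (by
            have h5 : ν.1.1 = i := Sum.inr_injective hν
            obtain ⟨h, hh⟩ := ν.1.2
            exact ⟨h, hh.trans h5⟩)), hξe, hξX, F1 i hφ (fun h hh => hc ⟨h, hh⟩), hpf']
    · refine IsHomogeneous.sub ?_ ?_
      · have h5 := (isHomogeneous_X κ (Sum.inr φ : Fin (n + 1) ⊕ (H ⊕ Fin r))).pow (p ^ D.t φ)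
        rwa [one_mul] at h5
      · have h5 : (D.pv (fun i => (X (Sum.inr (Sum.inr i)) :
            MvPolynomial (Fin (n + 1) ⊕ (H ⊕ Fin r)) κ)) φ).IsHomogeneous
            ((D.prev φ).elim 0 (fun _ => 1)) := by
          unfold Dat.pv
          cases D.prev φ with
          | none => exact isHomogeneous_one _ _
          | some i => exact isHomogeneous_X _ _
        have h6 := h5.mul (Th_hom D hG cf c' φ)
        rwa [e_add D hp.pos] at h6
  have hquot : ∀ φ, D.valid φ → (Ideal.Quotient.mk P' (X (Sum.inr φ))) ^ (p ^ D.t φ) =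
      D.pv (fun i => Ideal.Quotient.mk P' (X (Sum.inr (Sum.inr i)))) φ *
        Ideal.Quotient.mk P' (Th (H ⊕ Fin r) (D.e p) cf (gx D n p) (Wx D n p) c' φ) := by
    intro φ hφ
    have h5 : D.pv (fun i => Ideal.Quotient.mk P' (X (Sum.inr (Sum.inr i)))) φ =
        Ideal.Quotient.mk P' (D.pv (fun i => X (Sum.inr (Sum.inr i))) φ) := by
      unfold Dat.pv
      cases D.prev φ with
      | none => exact (map_one _).symm
      | some i => rfl
    rw [h5, ← map_pow, ← map_mul]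
    exact Ideal.Quotient.eq.2 (hrel φ hφ)
  have hgr3 : ∃ C : ℕ, ∀ t, Module.finrank κ (Pc κ ξ t) ≤ C * (t + 1) := by
    obtain ⟨C, hC⟩ := hgr1
    exact ⟨C, fun t => by rw [hPcEq]; exact hC t⟩
  obtain ⟨K0, hK0⟩ := h1 κ p n m s hs hnm hnp (H ⊕ Fin r) (H ⊕ Fin r) (D.Ex n p) (D.e p) he
    D.grp D.fst hG.grpfst D.pi hG.pdvd hG.degree (gx D n p) (Wx D n p) cf c' hind P' hP'h
    (by
      obtain ⟨C, hC⟩ := hgr3
      exact ⟨C, fun t => by rw [hP'f]; exact hC t⟩)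
    (by
      intro c
      refine ⟨D.lst c, ?_⟩
      have h5 := hG.chain c (MvPolynomial (Fin (n + 1) ⊕ (H ⊕ Fin r)) κ ⧸ P')
        (fun φ => Ideal.Quotient.mk P' (X (Sum.inr φ)))
        (fun φ => Ideal.Quotient.mk P'
          (Th (H ⊕ Fin r) (D.e p) cf (gx D n p) (Wx D n p) c' φ)) hquot
      simp only [← map_pow, ← map_prod, ← map_mul] at h5
      exact Ideal.Quotient.eq.1 h5)
    (by
      intro φ
      by_cases hφ : D.valid φ
      · right
        obtain ⟨ρ, hρ, h5⟩ := hG.integral φ hφ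
        refine ⟨ρ, hρ, ?_⟩
        have h6 := h5 (MvPolynomial (Fin (n + 1) ⊕ (H ⊕ Fin r)) κ ⧸ P')
          (fun φ => Ideal.Quotient.mk P' (X (Sum.inr φ)))
          (fun φ => Ideal.Quotient.mk P'
            (Th (H ⊕ Fin r) (D.e p) cf (gx D n p) (Wx D n p) c' φ)) hquot
        simp only [← map_pow, ← map_prod] at h6
        exact Ideal.Quotient.eq.1 h6
      · left
        rw [hP'm 1 _ (isHomogeneous_X _ _), aeval_X]
        rcases φ with h | i
        · exact absurd (hG.itused h) hφ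
        · rw [hξX]
          exact F0 i hφ)
  obtain ⟨K1, a1, b1, δ1, -, hA1, hB1, -, hab1⟩ := h2 κ Ω (Fin (n + 1) ⊕ Fin r)
    H η z (Sum.inl j0) hj0 hzint hgr1
  have hab1' : a1 = b1 := hab1 hzF'
  have hdiv : ((p ^ s : ℕ) : ℤ) ∣ (a1 : ℤ) := by
    have h5 := hK0 (K0 + K1) (by omega)
    have h6 := hA1 (K0 + K1) (by omega)
    rw [hP'f, hP'f, hPcEq, hPcEq, h6] at h5
    have h7 : ((Module.finrank κ (Pc κ (Sum.elim η z) (K0 + K1)) + a1 : ℕ) : ℤ) -
        Module.finrank κ (Pc κ (Sum.elim η z) (K0 + K1)) = a1 := by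
      push_cast
      ring
    rwa [h7] at h5
  refine ⟨K1, fun t ht => ?_⟩
  rw [hPf, hPf, hB1 t ht]
  have h7 : ((Module.finrank κ (Pc κ η t) + b1 : ℕ) : ℤ) -
      Module.finrank κ (Pc κ η t) = b1 := by
    push_cast
    ring
  rw [h7, ← hab1']
  exact hdiv

end Pool.Agent.Y378.ND
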